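import Pool.Agent.W851.BE.Stm

/-!
# Finiteness of the set of repelling fixed points (`S_FIN` of project BE)
-/

open Polynomial Topology Filter MeasureTheory
open scoped ENNReal

namespace Pool.Agent.W398.BE

open Pool.Agent.W95.BK Pool.Agent.W851.BE

universe u

section
variable {K : Type u} [NontriviallyNormedField K] [IsUltrametricDist K] [IsAlgClosed K]

omit [IsUltrametricDist K] [IsAlgClosed K] in
lemma lam_nonneg (x : BA K) (a : K) : 0 ≤ lam x a := x.nonneg' _

omit [IsAlgClosed K] in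
lemma cl_inj {a b : K} (h : (cl a : BA K) = cl b) : a = b := by
  have h1 : (cl a : BA K) (X - C b) = (cl b : BA K) (X - C b) := by rw [h]
  have h2 : ‖(X - C b : K[X]).eval a‖ = ‖(X - C b : K[X]).eval b‖ := h1
  simp only [eval_sub, eval_X, eval_C, sub_self, norm_zero] at h2
  exact sub_eq_zero.1 (norm_eq_zero.1 h2)

/-- the part in the hyperbolic space -/
lemma hyp_finite (hT : S_TYPE2.{u}) (hC : S_C.{u}) (hN : S_NWI.{u}) (f : RMap K)
    (hd : 2 ≤ f.d) : (RFixH f).Finite := by
  classical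
  have hfin : {x : BA K | XF f x}.Finite := by
    by_contra hinf
    obtain ⟨I, hI, hcard⟩ := Set.Infinite.exists_subset_card_eq hinf (f.d + 1)
    obtain ⟨r, hr0, hr⟩ : ∃ r : ℝ, 0 < r ∧ ∀ x ∈ I, lam x 0 < r := by
      refine ⟨∑ x ∈ I, lam x 0 + 1, ?_, ?_⟩
      · have : 0 ≤ ∑ x ∈ I, lam x 0 := Finset.sum_nonneg fun x _ => lam_nonneg x 0
        linarith
      · intro x hx
        have := Finset.single_le_sum (f := fun x : BA K => lam x 0)
          (fun y _ => lam_nonneg y 0) hx
        linarith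
    have h1 := hC K f I ∅ 0 r (fun x hx => hI hx) (by simp) (by simp) (by simp) hr (by simp) hr0
    have h2 := (hN K f 0 r hr0).1
    have h3 : Nw f 0 r ≤ f.d := h2.2.2.2.1.trans h2.2.2.2.2.1
    have h4 : I.card ≤ ∑ x ∈ I, (localDeg f (x : P1B K) - 1) := by
      rw [Finset.card_eq_sum_ones]
      refine Finset.sum_le_sum fun x hx => ?_
      have := (hI hx).2.2
      omega
    rw [Finset.sum_empty, add_zero] at h1
    omega
  refine (hfin.image (fun x : BA K => (x : P1B K))).subset ?_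
  rintro x ⟨y, hy, rfl, h1, h2⟩
  exact ⟨y, ⟨hT K f y hd hy h1 h2, h1, h2⟩, rfl⟩

omit [IsUltrametricDist K] [IsAlgClosed K] in
lemma poly_ne (f : RMap K) (hd : 2 ≤ f.d) : f.P - X * f.Q ≠ 0 := by
  intro h
  have hP : f.P = X * f.Q := sub_eq_zero.1 h
  have hc := f.cop
  rw [hP] at hc
  have hu : IsUnit f.Q := isCoprime_self.1 hc.of_mul_left_right
  have hq0 : f.Q.natDegree = 0 := natDegree_eq_zero_of_isUnit hu
  have hp1 : f.P.natDegree ≤ 1 := by
    rw [hP]
    refine natDegree_mul_le.trans ?_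
    rw [natDegree_X, hq0]
  have h5 := f.deg_eq
  rw [hq0] at h5
  have h6 : max f.P.natDegree 0 ≤ 1 := max_le hp1 (by norm_num)
  omega

/-- the classical part -/
lemma cl_finite (hA : S_ACT.{u}) (f : RMap K) (hd : 2 ≤ f.d) :
    {c : K | f.act ((cl c : BA K) : P1B K) = ((cl c : BA K) : P1B K)}.Finite := by
  classical
  refine ((f.P - X * f.Q).roots.toFinset.finite_toSet).subset ?_
  intro c hc
  have hc' : f.act ((cl c : BA K) : P1B K) = ((cl c : BA K) : P1B K) := hc
  obtain ⟨-, h2, h3, -, -⟩ := hA K f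
  rw [Finset.mem_coe, Multiset.mem_toFinset, mem_roots (poly_ne f hd), IsRoot.def]
  by_cases hQ : f.Q.eval c = 0
  · have := h3 c hQ
    rw [hc'] at this
    exact absurd this (OnePoint.coe_ne_infty _)
  · have h4 := h2 c hQ
    rw [hc'] at h4
    have h5 : c = f.P.eval c / f.Q.eval c := cl_inj (OnePoint.coe_injective h4)
    have h6 : f.P.eval c = c * f.Q.eval c := by
      rw [eq_div_iff hQ] at h5
      exact h5.symm
    rw [eval_sub, eval_mul, eval_X, h6, sub_self]

end

/-- `S_FIN`: the set of repelling fixed points is finite -/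
theorem main (hT : S_TYPE2.{u}) (hC : S_C.{u}) (hN : S_NWI.{u}) (hA : S_ACT.{u}) :
    S_FIN.{u} := by
  intro K _ _ _ f hd
  refine (hyp_finite hT hC hN f hd).union ?_
  refine ((Set.finite_singleton (OnePoint.infty : P1B K)).union
    ((cl_finite hA f hd).image (fun c : K => ((cl c : BA K) : P1B K)))).subset ?_
  rintro x ⟨hx | ⟨c, rfl⟩, h2, -⟩
  · exact Or.inl hx
  · exact Or.inr ⟨c, h2, rfl⟩

end Pool.Agent.W398.BE
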